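import Mathlib
import Pool.Agent.V11313.Surplus

namespace Pool.Agent.Results.MP_e83726_nt.GapUnbounded

open Finset Pool.Agent.V11313.Surplus

lemma NP_ge_of_lt {P Q R : ℕ} (hQ : Q.Prime) (hR : R.Prime) (hPQ : P < Q) (hQR : Q < R)
    (hP2 : 2 ≤ P) : NP P * Q * R ≤ NP R := by
  have hsub : insert R (insert Q (oddPr P)) ⊆ oddPr R := by
    intro x hx
    rw [mem_insert, mem_insert] at hx
    rw [mem_oddPr]
    rcases hx with rfl | rfl | hx
    · exact ⟨le_rfl, hR, hR.odd_of_ne_two (by omega)⟩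
    · exact ⟨hQR.le, hQ, hQ.odd_of_ne_two (by omega)⟩
    · rw [mem_oddPr] at hx
      exact ⟨by omega, hx.2⟩
  have h1 : ∏ p ∈ insert R (insert Q (oddPr P)), p = R * (Q * NP P) := by
    rw [prod_insert, prod_insert]
    · rfl
    · rw [mem_oddPr]; omega
    · rw [mem_insert, mem_oddPr]; omega
  have h2 : ∏ p ∈ insert R (insert Q (oddPr P)), p ≤ NP R :=
    prod_le_prod_of_subset_of_one_le' hsub (fun i hi _ => (mem_oddPr.mp hi).2.1.one_lt.le)
  rw [h1] at h2
  calc NP P * Q * R = R * (Q * NP P) := by ring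
    _ ≤ NP R := h2

lemma NP_tendsto (C : ℝ) (P₀ : ℕ) : ∃ P ≥ P₀, C ≤ NP P ∧ 2 ≤ ∏ p ∈ oddPr P, (1 + 1 / (p : ℝ)) := by
  obtain ⟨P, hP, h1⟩ := exists_prod_ge (max 2 C) P₀
  refine ⟨P, hP, ?_, (le_max_left _ _).trans h1⟩
  refine ((le_max_right _ _).trans h1).trans ?_
  unfold NP
  push_cast
  apply Finset.prod_le_prod
  · intro i _; positivity
  · intro p hp
    have := (mem_oddPr.mp hp).2.1.two_le
    have h2 : (2 : ℝ) ≤ p := by exact_mod_cast this
    have : 1 / (p : ℝ) ≤ 1 := by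
      rw [div_le_one (by linarith)]; linarith
    linarith

/-- Every odd `k < NP P` satisfies `H k ≤ H (NP P) * (1 - 1/P)`. -/
lemma H_lt_of_lt {P k : ℕ} (_hP : P.Prime) (hP2 : 2 < P) (hk : k < NP P) (ho : Odd k)
    (hk0 : k ≠ 0) : H k ≤ H (NP P) * (((P : ℝ) - 1) / P) := by
  set A := oddPr P with hA
  set K := k.primeFactors with hK
  have hPr : (2 : ℝ) < P := by exact_mod_cast hP2
  set x : ℝ := (P : ℝ) / ((P : ℝ) - 1) with hx
  have hx1 : 1 ≤ x := by
    rw [hx, le_div_iff₀ (by linarith)]; linarith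
  have hx0 : 0 < x := by linarith
  -- the cardinalities
  have hKA : ∀ q ∈ K \ A, P < q := by
    intro q hq
    rw [mem_sdiff, hA, mem_oddPr] at hq
    obtain ⟨hq1, hq2⟩ := hq
    have hqp := Nat.prime_of_mem_primeFactors hq1
    have hqo : Odd q := ho.of_dvd_nat (Nat.dvd_of_mem_primeFactors hq1)
    by_contra hcon
    exact hq2 ⟨by omega, hqp, hqo⟩
  have hprod : ∏ q ∈ K, q ≤ k := by
    exact Nat.le_of_dvd (Nat.pos_of_ne_zero hk0) (Nat.prod_primeFactors_dvd k)
  have hlt : (∏ q ∈ K \ A, q) < ∏ p ∈ A \ K, p := by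
    have e1 : (∏ q ∈ K \ A, q) * ∏ q ∈ K ∩ A, q = ∏ q ∈ K, q := by
      rw [mul_comm, prod_inter_mul_prod_sdiff]
    have e2 : (∏ q ∈ A \ K, q) * ∏ q ∈ K ∩ A, q = ∏ q ∈ A, q := by
      rw [inter_comm, mul_comm, prod_inter_mul_prod_sdiff]
    have hpos : 0 < ∏ q ∈ K ∩ A, q :=
      prod_pos (fun q hq => (Nat.prime_of_mem_primeFactors (mem_inter.mp hq).1).pos)
    have h3 : ∏ q ∈ K, q < ∏ q ∈ A, q := lt_of_le_of_lt hprod hk
    rw [← e1, ← e2] at h3
    exact lt_of_mul_lt_mul_right h3 hpos.le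
  have hcard : (K \ A).card < (A \ K).card := by
    have h1 : P ^ (K \ A).card ≤ ∏ q ∈ K \ A, q := by
      rw [← prod_const]
      exact prod_le_prod' (fun q hq => (hKA q hq).le)
    have h2 : ∏ p ∈ A \ K, p ≤ P ^ (A \ K).card := by
      rw [← prod_const]
      exact prod_le_prod' (fun q hq => (mem_oddPr.mp (mem_sdiff.mp hq).1).1)
    have h3 : P ^ (K \ A).card < P ^ (A \ K).card := lt_of_le_of_lt h1 (lt_of_lt_of_le hlt h2)
    exact (Nat.pow_lt_pow_iff_right (by omega)).mp h3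
  -- the products
  let f : ℕ → ℝ := fun p => (p : ℝ) / ((p : ℝ) - 1)
  have hf1 : ∏ q ∈ K \ A, f q ≤ x ^ (K \ A).card := by
    rw [← prod_const]
    apply Finset.prod_le_prod
    · intro q hq
      have := hKA q hq
      have h2 : (P : ℝ) < q := by exact_mod_cast this
      exact div_nonneg (by linarith) (by linarith)
    · intro q hq
      have := hKA q hq
      have h2 : (P : ℝ) < q := by exact_mod_cast this
      show (q : ℝ) / ((q : ℝ) - 1) ≤ (P : ℝ) / ((P : ℝ) - 1)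
      rw [div_le_div_iff₀ (by linarith) (by linarith)]
      linarith
  have hf2 : x ^ (A \ K).card ≤ ∏ q ∈ A \ K, f q := by
    rw [← prod_const]
    apply Finset.prod_le_prod
    · intro q _; exact hx0.le
    · intro q hq
      have h1 := mem_oddPr.mp (mem_sdiff.mp hq).1
      have h2 : (q : ℝ) ≤ P := by exact_mod_cast h1.1
      have h3 := prime_cast_ge h1.2.1
      show (P : ℝ) / ((P : ℝ) - 1) ≤ (q : ℝ) / ((q : ℝ) - 1)
      rw [div_le_div_iff₀ (by linarith) (by linarith)]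
      linarith
  have hHk : H k = (∏ q ∈ K \ A, f q) * ∏ q ∈ K ∩ A, f q := by
    rw [mul_comm, prod_inter_mul_prod_sdiff]; rfl
  have hHN : H (NP P) = (∏ q ∈ A \ K, f q) * ∏ q ∈ K ∩ A, f q := by
    rw [inter_comm, mul_comm, prod_inter_mul_prod_sdiff]
    unfold H
    rw [primeFactors_NP]
  have hc : 0 < ∏ q ∈ K ∩ A, f q := by
    apply prod_pos
    intro q hq
    have := prime_cast_ge (Nat.prime_of_mem_primeFactors (mem_inter.mp hq).1)
    exact div_pos (by linarith) (by linarith)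
  have hxinv : ((P : ℝ) - 1) / P = x⁻¹ := by rw [hx, inv_div]
  rw [hHk, hHN, hxinv]
  have h5 : x ^ (K \ A).card ≤ x ^ (A \ K).card * x⁻¹ := by
    obtain ⟨m, hm⟩ : ∃ m, (A \ K).card = m + 1 := ⟨(A \ K).card - 1, by omega⟩
    rw [hm, pow_succ, mul_assoc, mul_inv_cancel₀ hx0.ne', mul_one]
    exact pow_le_pow_right₀ hx1 (by omega)
  calc (∏ q ∈ K \ A, f q) * ∏ q ∈ K ∩ A, f q ≤ (x ^ (A \ K).card * x⁻¹) * ∏ q ∈ K ∩ A, f q :=
        mul_le_mul_of_nonneg_right (hf1.trans h5) hc.le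
    _ ≤ ((∏ q ∈ A \ K, f q) * x⁻¹) * ∏ q ∈ K ∩ A, f q := by
        apply mul_le_mul_of_nonneg_right _ hc.le
        exact mul_le_mul_of_nonneg_right hf2 (by positivity)
    _ = _ := by ring

/-- For every `M` there is an odd primorial exceeding every earlier value of `g` by `M`. -/
lemma exists_big (M : ℝ) (B : ℕ) : ∃ n > B, Odd n ∧ NonDeficient n ∧
    ∀ k < n, Odd k → NonDeficient k → g k + M ≤ g n := by
  obtain ⟨P1, hP1, h3, h4⟩ := NP_tendsto (max (2 * M ^ 2) (B + 1)) 2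
  obtain ⟨Q1, hQ1, hPQ1, hQP1⟩ := Nat.exists_prime_lt_and_le_two_mul P1 (by omega)
  obtain ⟨R, hR, hQR, hRQ⟩ := Nat.exists_prime_lt_and_le_two_mul Q1 (by omega)
  have hge := NP_ge_of_lt hQ1 hR hPQ1 hQR hP1
  have hRr : (0 : ℝ) < R := by exact_mod_cast hR.pos
  have hnd : NonDeficient (NP R) := by
    apply NP_nonDeficient
    refine h4.trans ?_
    have hsub : oddPr P1 ⊆ oddPr R := by
      intro x hx
      rw [mem_oddPr] at hx ⊢
      exact ⟨by omega, hx.2⟩
    rw [← Finset.prod_sdiff hsub]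
    have h5 : 1 ≤ ∏ p ∈ oddPr R \ oddPr P1, (1 + 1 / (p : ℝ)) := by
      refine Finset.prod_induction _ (fun x : ℝ => 1 ≤ x)
        (fun a b ha hb => one_le_mul_of_one_le_of_one_le ha hb) le_rfl (fun i _ => ?_)
      have : (0 : ℝ) ≤ 1 / (i : ℝ) := by positivity
      linarith
    have h6 : (0 : ℝ) ≤ ∏ p ∈ oddPr P1, (1 + 1 / (p : ℝ)) := prod_nonneg (fun i _ => by positivity)
    nlinarith
  have hNle : ((NP P1 : ℝ)) * (Q1 * R) ≤ NP R := by
    have : ((NP P1 * Q1 * R : ℕ) : ℝ) ≤ NP R := by exact_mod_cast hge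
    push_cast at this
    linarith
  have hRQr : (R : ℝ) ≤ 2 * Q1 := by exact_mod_cast hRQ
  have hN1 : (R : ℝ) ^ 2 * M ^ 2 ≤ NP R := by
    have h7 : 2 * M ^ 2 ≤ (NP P1 : ℝ) := (le_max_left _ _).trans h3
    have h8 : (0 : ℝ) < Q1 := by exact_mod_cast hQ1.pos
    calc (R : ℝ) ^ 2 * M ^ 2 = R * R * M ^ 2 := by ring
      _ ≤ (2 * Q1) * R * M ^ 2 := by gcongr
      _ = 2 * M ^ 2 * (Q1 * R) := by ring
      _ ≤ NP P1 * (Q1 * R) := by gcongr
      _ ≤ NP R := hNle
  refine ⟨NP R, ?_, odd_NP R, hnd, ?_⟩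
  · have h9 : ((B : ℝ) + 1) ≤ NP P1 := (le_max_right _ _).trans h3
    have h10 : B + 1 ≤ NP P1 := by exact_mod_cast h9
    have : NP P1 * 1 ≤ NP P1 * (Q1 * R) := Nat.mul_le_mul_left _ (Nat.mul_pos hQ1.pos hR.pos)
    have h11 : NP P1 * (Q1 * R) = NP P1 * Q1 * R := by ring
    omega
  · intro k hk hko hknd
    have hlt := H_lt_of_lt hR (by omega) hk hko hknd.1.ne'
    have h2k := two_le_H hknd
    have hHN : 1 ≤ H (NP R) := by linarith [two_le_H hnd]
    have hsqk : Real.sqrt k ≤ Real.sqrt (NP R) := Real.sqrt_le_sqrt (by exact_mod_cast hk.le)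
    have hs : |M| * R ≤ Real.sqrt (NP R) := by
      apply Real.le_sqrt_of_sq_le
      rw [mul_pow, sq_abs]
      linarith
    have hgk : g k ≤ (H k - 2) * Real.sqrt (NP R) := by
      unfold g S
      exact mul_le_mul_of_nonneg_left hsqk (by linarith)
    have hsp : 0 ≤ Real.sqrt (NP R) := Real.sqrt_nonneg _
    have hgN : g (NP R) = (H (NP R) - 2) * Real.sqrt (NP R) := rfl
    have hdiff : H (NP R) - H k ≥ H (NP R) / R := by
      have : H (NP R) * (((R : ℝ) - 1) / R) = H (NP R) - H (NP R) / R := by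
        field_simp
      linarith
    have hd2 : (1 : ℝ) / R ≤ H (NP R) - H k := by
      have : 1 / (R : ℝ) ≤ H (NP R) / R := by gcongr
      linarith
    have hfin : |M| ≤ (H (NP R) - H k) * Real.sqrt (NP R) := by
      calc |M| = (1 / R) * (|M| * R) := by field_simp
        _ ≤ (1 / R) * Real.sqrt (NP R) := by gcongr
        _ ≤ (H (NP R) - H k) * Real.sqrt (NP R) := by gcongr
    have := le_abs_self M
    rw [hgN]
    linarith

/-- The strictly increasing enumeration `b` of the record setters `B₁` exists, and the gaps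
`g (b (j+1)) - g (b j)` are unbounded. -/
theorem result : ∃ b : ℕ → ℕ, StrictMono b ∧ Set.range b = B1 ∧
    ∀ M : ℝ, ∃ j : ℕ, M < g (b (j + 1)) - g (b j) := by
  refine ⟨Nat.nth (· ∈ B1), Nat.nth_strictMono B1_infinite, Nat.range_nth_of_infinite B1_infinite, ?_⟩
  set b := Nat.nth (· ∈ B1) with hb
  have hrange : ∀ x ∈ B1, ∃ j, b j = x := by
    intro x hx
    have hr : Set.range b = B1 := Nat.range_nth_of_infinite B1_infinite
    have : x ∈ Set.range b := hr ▸ hx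
    exact this
  have hmem : ∀ j, b j ∈ B1 := fun j => Nat.nth_mem_of_infinite B1_infinite j
  have hmono : StrictMono b := Nat.nth_strictMono B1_infinite
  intro M
  obtain ⟨n, hn, hno, hnn, hbig⟩ := exists_big (max (M + 1) 1) (b 0)
  have hnB : n ∈ B1 := by
    refine ⟨hno, hnn, fun k hk hko hkn => ?_⟩
    have := hbig k hk hko hkn
    have h1 := le_max_right (M + 1) 1
    linarith
  obtain ⟨i, hi⟩ := hrange n hnB
  have hi0 : i ≠ 0 := by
    rintro rfl
    omega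
  obtain ⟨j, rfl⟩ : ∃ j, i = j + 1 := ⟨i - 1, by omega⟩
  refine ⟨j, ?_⟩
  have hlt : b j < n := hi ▸ hmono (Nat.lt_succ_self j)
  have hj := hmem j
  have := hbig (b j) hlt hj.1 hj.2.1
  have h1 := le_max_left (M + 1) 1
  rw [hi]
  linarith

end Pool.Agent.Results.MP_e83726_nt.GapUnbounded
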